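import Pool.Agent.RCM.StmtsA

/-!
# Row SAF of the squad RCA (helper84): `Z`-safe wandering
-/

set_option autoImplicit false

namespace Pool.Agent.RCM.H84

open Set

universe u

theorem saf (hopb : OpbStmt.{u}) (hsa1 : Sa1Stmt.{u}) : SafStmt.{u} := by
  intro E K _ _ M N κ s t P X T m w D F Z hCol hMx hSt hRob hZT hcard
  obtain ⟨hmono, htrans, -, hst⟩ := hopb E K M N κ X
  have hfr : ∀ j : ℕ, j ≤ w → ∃ T' P', Op M N κ X (j * (m + 1)) T P T' P' ∧
      P' = P ∪ (Z \ T') ∧ (Z \ T').ncard = j := by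
    intro j
    induction j with
    | zero =>
      intro _
      have h0 : Z \ T = ∅ := Set.sdiff_eq_empty.2 hZT
      exact ⟨T, P, Op.rfl _ T P, by rw [h0, Set.union_empty], by rw [h0, Set.ncard_empty]⟩
    | succ j ih =>
      intro hj
      obtain ⟨T', P', hOp, hP', hcj⟩ := ih (by omega)
      have hle : j * (m + 1) ≤ w * (m + 1) := Nat.mul_le_mul_right _ (by omega)
      have h1 := hRob T' P' (hmono _ _ _ _ _ _ hle hOp)
      obtain ⟨hSt', -⟩ := hst s t _ T P T' P' hCol hMx hSt hOp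
      -- an element of `Z ∩ T'` with its colour in `Gn`
      obtain ⟨y, hyZ, hyT, hyG⟩ : ∃ y, y ∈ Z ∧ y ∈ T' ∧ κ y ∈ Gn M N κ P' X m T' := by
        by_contra hno
        push Not at hno
        let A : Set E := {y ∈ Z | κ y ∈ F}
        have hsub : κ '' (A ∩ T') ⊆ F \ Gn M N κ P' X m T' := by
          rintro _ ⟨y, ⟨⟨hy1, hy2⟩, hy3⟩, rfl⟩
          exact ⟨hy2, hno y hy1 hy3⟩
        have h2 : (A ∩ T').ncard ≤ D := by
          have h3 : (κ '' (A ∩ T')).ncard = (A ∩ T').ncard :=
            (hSt'.ri.inj.mono Set.inter_subset_right).ncard_image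
          rw [← h3]
          exact (Set.ncard_le_ncard hsub (Set.toFinite _)).trans h1
        have h4 : A \ T' ⊆ Z \ T' := fun y hy => ⟨hy.1.1, hy.2⟩
        have h5 : (A \ T').ncard ≤ j := by
          rw [← hcj]
          exact Set.ncard_le_ncard h4 (Set.toFinite _)
        have h6 : (A ∩ T').ncard + (A \ T').ncard = A.ncard :=
          Set.ncard_inter_add_ncard_sdiff_eq_ncard A T' (Set.toFinite _)
        have h7 : D + w ≤ A.ncard := hcard
        omega
      obtain ⟨T1, y', hOp1, hy1, hy2, hy3, hy4⟩ := hsa1 E K M N κ s t P' X T' m Z y hCol hMx hSt'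
        (by rw [hP']; exact Set.subset_union_right) hyZ hyT hyG
      refine ⟨T1, insert y' P', ?_, ?_, ?_⟩
      · rw [Nat.succ_mul]
        exact htrans _ _ _ _ _ _ _ _ hOp (Op.frz m T' P' T1 P' y' hOp1 hy1)
      · rw [hy4, hP', Set.union_insert]
      · rw [hy4, Set.ncard_insert_of_notMem (fun h => h.2 hy3) (Set.toFinite _), hcj]
  exact hfr w le_rfl

end Pool.Agent.RCM.H84
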